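import Pool.Agent.EQC.Stmts

/-! Squad EQC, row LOW. -/

set_option autoImplicit false

open SimpleGraph Finset
open Pool.Agent.Helper51_Equitable (edges nbrs vertexSum nb IsEquitableProper Nice mem_edges mem_nbrs)

namespace Pool.Agent.EQC.H26

section
variable {V : Type} [Fintype V] {G : SimpleGraph V} {c D : ℕ} {d : Dat G D} {s : Sel c d}

theorem nf {x v : V} (h : x ∈ s.NF v) : Hi G D x ∧ x ≠ d.r0 ∧ Hi G D v ∧ d.Out x v := by
  obtain ⟨h1, h2, h3⟩ := s.NF_sub v x h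
  obtain ⟨h4, h5, _⟩ := d.F_sub x h1 h2 v h3
  exact ⟨h1, h2, h4, h5⟩

theorem wf {x v : V} (h : x ∈ s.WF v) : Hi G D x ∧ x ≠ d.r0 ∧ Hi G D v ∧ d.Out x v ∧
    d.tau x = v ∧ Xw s x := by
  obtain ⟨h1, h2, h3⟩ := s.WF_sub v x h
  have ha : Act d v := by
    by_contra hn
    have := (s.act v hn).2
    rw [this] at h
    exact absurd h (Finset.notMem_empty x)
  refine ⟨h1, h2, ha.1, ?_, h3, ?_⟩
  · have := d.tau_out x h1 h2
    rwa [h3] at this
  · unfold Xw
    rw [h3]
    exact h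

theorem mt_hi (w : Win s) {x : V} {b : Bool} (hx : Xw s x) {u : V} (hu : u ∈ w.mt x b) :
    Hi G D u := ((d.mm.edge _ (w.mem x b hx).1).2 u hu)

/-- the partner edge of a normal item -/
theorem e1_inl (w : Win s) (p : Sup c d) {x v u : V} (h : x ∈ s.NF v)
    (hu : u ∈ E1 w p (Sum.inl (x, v))) (hl : ¬ Hi G D u) :
    u = d.tau x ∧ E1 w p (Sum.inl (x, v)) = s(x, d.tau x) := by
  obtain ⟨h1, h2, h3⟩ := s.NF_sub v x h
  have hk := d.par_some x h1 h2 v h3
  unfold E1 at hu ⊢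
  simp only at hu ⊢
  cases hp : d.par x v with
  | some y =>
    rw [hp] at hu
    simp only at hu
    rcases Sym2.mem_iff.1 hu with rfl | rfl
    · exact absurd h1 hl
    · exact absurd (hk _ hp).1 hl
  | none =>
    rw [hp] at hu
    simp only at hu ⊢
    by_cases hX : Xw s x
    · rw [if_pos hX] at hu
      exact absurd (mt_hi w hX hu) hl
    · rw [if_neg hX] at hu ⊢
      rcases Sym2.mem_iff.1 hu with rfl | rfl
      · exact absurd h1 hl
      · exact ⟨rfl, rfl⟩

/-- a free edge has the form `s(x, v)` with `Out x v` and `v` high -/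
theorem e0_form (p : Sup c d) (i : Idx V c) (hi : Ok s i) :
    ∃ x v, E0 p i = s(x, v) ∧ d.Out x v ∧ Hi G D v := by
  rcases i with ⟨x, v⟩ | ⟨x, v⟩ | ⟨t, j⟩
  · obtain ⟨_, _, h3, h4⟩ := nf (s := s) hi
    exact ⟨x, v, rfl, h4, h3⟩
  · obtain ⟨_, _, h3, h4, _⟩ := wf (s := s) hi
    exact ⟨x, v, rfl, h4, h3⟩
  · obtain ⟨h1, h2⟩ := hi
    have := p.a_mem t j h1 h2.2.1
    exact ⟨p.a t j, t, rfl, this.2, h2.1⟩

theorem fact (w : Win s) (p : Sup c d) {u z v' : V} (hl : ¬ Hi G D u) (hz : ¬ Hi G D z)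
    (hno : ¬ d.Out u v') :
    (∀ i, Ok s i → s(u, v') = E0 p i → z ∉ E1 w p i) ∧
      (∀ i, Ok s i → s(u, v') = E1 w p i → z ∉ E0 p i) := by
  constructor
  · intro i hi he
    exfalso
    obtain ⟨x, v, h1, h2, h3⟩ := e0_form p i hi
    rw [h1] at he
    rcases Sym2.eq_iff.1 he with ⟨rfl, rfl⟩ | ⟨rfl, rfl⟩
    · exact hno h2
    · exact hl h3
  · intro i hi he hz0
    have hu : u ∈ E1 w p i := by
      rw [← he]
      exact Sym2.mem_mk_left _ _
    rcases i with ⟨x, v⟩ | ⟨x, v⟩ | ⟨t, j⟩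
    · obtain ⟨h1, _, h3, _⟩ := nf (s := s) hi
      rcases Sym2.mem_iff.1 (show z ∈ s(x, v) from hz0) with rfl | rfl
      · exact hz h1
      · exact hz h3
    · obtain ⟨h1, _, h3, _⟩ := wf (s := s) hi
      rcases Sym2.mem_iff.1 (show z ∈ s(x, v) from hz0) with rfl | rfl
      · exact hz h1
      · exact hz h3
    · obtain ⟨h1, h2⟩ := hi
      have h4 := p.b_mem t j h1 h2.2.1
      have h5 := (p.nx_mem t h1 h2.2.1).1.1
      rcases Sym2.eq_iff.1 (show s(u, v') = s(p.b t j, p.nx t) from he) with ⟨h6, h7⟩ | ⟨h6, h7⟩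
      · rw [h6, h7] at hno
        exact hno h4.2
      · rw [h6] at hl
        exact hl h5

theorem two (w : Win s) (p : Sup c d) {u z v' : V} (hl : ¬ Hi G D u) (hz : ¬ Hi G D z)
    (hadj : G.Adj u z) (hu2 : dg G u = 2) (hz2 : dg G z = 2) :
    (∀ i, Ok s i → s(u, v') = E0 p i → z ∉ E1 w p i) ∧
      (∀ i, Ok s i → s(u, v') = E1 w p i → z ∉ E0 p i) := by
  constructor
  · intro i hi he hz1
    have hu : u ∈ E0 p i := by
      rw [← he]
      exact Sym2.mem_mk_left _ _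
    rcases i with ⟨x, v⟩ | ⟨x, v⟩ | ⟨t, j⟩
    · obtain ⟨h1, _, h3, _⟩ := nf (s := s) hi
      rcases Sym2.mem_iff.1 (show u ∈ s(x, v) from hu) with rfl | rfl
      · exact hl h1
      · exact hl h3
    · obtain ⟨h1, _, h3, _⟩ := wf (s := s) hi
      rcases Sym2.mem_iff.1 (show u ∈ s(x, v) from hu) with rfl | rfl
      · exact hl h1
      · exact hl h3
    · obtain ⟨h1, h2⟩ := hi
      have h5 := (p.nx_mem t h1 h2.2.1).1.1
      have h8 := p.avoid t j h1 h2.2.1
      rcases Sym2.mem_iff.1 (show u ∈ s(p.a t j, t) from hu) with h6 | h6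
      · rcases Sym2.mem_iff.1 (show z ∈ s(p.b t j, p.nx t) from hz1) with h7 | h7
        · rw [← h6, ← h7] at h8
          exact h8 ⟨hadj, hu2, hz2⟩
        · rw [h7] at hz
          exact hz h5
      · rw [h6] at hl
        exact hl h2.1
  · intro i hi he hz0
    have hu : u ∈ E1 w p i := by
      rw [← he]
      exact Sym2.mem_mk_left _ _
    rcases i with ⟨x, v⟩ | ⟨x, v⟩ | ⟨t, j⟩
    · obtain ⟨h1, _, h3, _⟩ := nf (s := s) hi
      rcases Sym2.mem_iff.1 (show z ∈ s(x, v) from hz0) with rfl | rfl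
      · exact hz h1
      · exact hz h3
    · obtain ⟨h1, _, h3, _⟩ := wf (s := s) hi
      rcases Sym2.mem_iff.1 (show z ∈ s(x, v) from hz0) with rfl | rfl
      · exact hz h1
      · exact hz h3
    · obtain ⟨h1, h2⟩ := hi
      have h5 := (p.nx_mem t h1 h2.2.1).1.1
      have h8 := p.avoid t j h1 h2.2.1
      rcases Sym2.mem_iff.1 (show u ∈ s(p.b t j, p.nx t) from hu) with h6 | h6
      · rcases Sym2.mem_iff.1 (show z ∈ s(p.a t j, t) from hz0) with h7 | h7
        · rw [← h6, ← h7] at h8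
          exact h8 ⟨hadj.symm, hz2, hu2⟩
        · rw [h7] at hz
          exact hz h2.1
      · rw [h6] at hl
        exact hl h5

end

theorem low : LowStmt := by
  classical
  intro V _ G c D d s w p u z hadj hdeg hl h2
  have hz : ¬ Hi G D z := by
    unfold Hi at hl ⊢
    rw [← hdeg]
    exact hl
  have huz : u ≠ z := hadj.ne
  -- an edge `s(u, v')`, `v' ≠ z`
  have key : ∀ v', G.Adj u v' → v' ≠ z →
      ((∀ i, Ok s i → s(u, v') = E0 p i → z ∉ E1 w p i) ∧
      (∀ i, Ok s i → s(u, v') = E1 w p i → z ∉ E0 p i)) →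
      ∃ e ∈ edges G, u ∈ e ∧ z ∉ e ∧ (∀ i, Ok s i → e = E0 p i → z ∉ E1 w p i) ∧
      (∀ i, Ok s i → e = E1 w p i → z ∉ E0 p i) := by
    intro v' h1 h3 h4
    refine ⟨s(u, v'), mem_edges.2 h1, Sym2.mem_mk_left _ _, ?_, h4.1, h4.2⟩
    intro h
    rcases Sym2.mem_iff.1 h with h | h
    · exact huz h.symm
    · exact h3 h.symm
  by_cases hex : ∃ v', G.Adj u v' ∧ v' ≠ z ∧ ¬ d.Out u v'
  · obtain ⟨v', h1, h3, h4⟩ := hex
    exact key v' h1 h3 (fact w p hl hz h4)
  · push Not at hex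
    have hc3 : ((nbrs G u).erase z).card = dg G u - 1 :=
      Finset.card_erase_of_mem (mem_nbrs.2 hadj)
    have hc1 : dg G u - 1 ≤ cnt fun v => d.Out u v := by
      rw [← hc3]
      unfold cnt
      refine Finset.card_le_card fun v hv => ?_
      rw [Finset.mem_erase, mem_nbrs] at hv
      exact Finset.mem_filter.2 ⟨Finset.mem_univ _, hex v hv.2 hv.1⟩
    have hc2 : (cnt fun v => G.Adj u v ∧ Hi G D v) ≤ dg G u - 1 := by
      rw [← hc3]
      unfold cnt
      refine Finset.card_le_card fun v hv => ?_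
      simp only [Finset.mem_filter, Finset.mem_univ, true_and] at hv
      rw [Finset.mem_erase, mem_nbrs]
      refine ⟨?_, hv.1⟩
      rintro rfl
      exact hz hv.2
    have hc4 := d.ori.lowout u hl
    have hu2 : dg G u = 2 := by omega
    have hpos : 0 < ((nbrs G u).erase z).card := by omega
    obtain ⟨v', hv'⟩ := Finset.card_pos.1 hpos
    have hv2 := hv'
    rw [Finset.mem_erase, mem_nbrs] at hv2
    exact key v' hv2.2 hv2.1 (two w p hl hz hadj hu2 (by omega))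

end Pool.Agent.EQC.H26
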